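import Mathlib
import Pool.Agent.W400.Rounding
import Pool.Agent.W400.StabWords

/-!
# Short presentations of finite groups with polynomial permutation stability

The groups are `G = V × (ZMod 2)^k` with `V = (ZMod 2)^(3a)`, `k = 2^a`, so `|V| = k^3`.
Generators: all elements `v` of `V` and `x_1, ..., x_k`; relators: the multiplication table of
`V`, `x_i^2`, `[x_i, x_j]` and `[x_i, v]`; both distributions are uniform.  If the defect `ε` satisfies `k^2 ε^(1/4) ≥ 1`, the
few generators `x_i` are negligible and one rounds on the table part only (the multiplication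
table of a finite group is stable with a universal linear rate, see
`Pool.Agent.W400.Rounding.rounding`).
Otherwise the defect is so small that normal forms give an almost homomorphism on all of `G` which
is uniformly good, and one rounds this one.
-/

namespace Pool.Agent.Results.MP_3a79a1_al.StableShortPresentations

open Finset Pool.Agent.W400.Rounding Pool.Agent.W400.StabWords

/-- The normalized Hamming distance (with errors) of `σ ∈ Sym(n)` and `τ ∈ Sym(N)`:
`1 - |{i : i < n, i < N, σ(i) = τ(i)}| / max(n, N)`. -/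
noncomputable def dH {n N : ℕ} (σ : Equiv.Perm (Fin n)) (τ : Equiv.Perm (Fin N)) : ℝ :=
  1 - ((univ.filter (fun i : Fin n =>
    ∃ h : (i : ℕ) < N, ((τ ⟨i, h⟩ : Fin N) : ℕ) = (σ i : ℕ))).card : ℝ) / (max n N : ℕ)

/-- The defect `‖δα‖ = E_{r ∼ μ_R} d_h(α(r), Id)`. -/
noncomputable def defect {S : Type} (R : Finset (FreeGroup S)) (μR : FreeGroup S → ℝ) {n : ℕ}
    (α : S → Equiv.Perm (Fin n)) : ℝ :=
  ∑ r ∈ R, μR r * dH (FreeGroup.lift α r) (1 : Equiv.Perm (Fin n))

/-- The distance `d(α, Z)`: the infimum of `E_{s ∼ μ_S} d_h(α(s), β(s))` over all maps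
`β : S → Sym(N)`, `N ≥ 2`, with `β(r) = Id` for every `r ∈ R`. -/
noncomputable def distZ {S : Type} [Fintype S] (R : Finset (FreeGroup S)) (μS : S → ℝ) {n : ℕ}
    (α : S → Equiv.Perm (Fin n)) : ℝ :=
  sInf {t : ℝ | ∃ (N : ℕ) (β : S → Equiv.Perm (Fin N)), 2 ≤ N ∧
    (∀ r ∈ R, FreeGroup.lift β r = 1) ∧ t = ∑ s, μS s * dH (α s) (β s)}

/-- `ρ`-stability of the presentation `⟨S | R⟩` with distributions `μ_S`, `μ_R`. -/
def IsStable {S : Type} [Fintype S] (R : Finset (FreeGroup S)) (μS : S → ℝ)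
    (μR : FreeGroup S → ℝ) (ρ : ℝ → ℝ) : Prop :=
  ∀ n : ℕ, 2 ≤ n → ∀ α : S → Equiv.Perm (Fin n), distZ R μS α ≤ ρ (defect R μR α)

lemma dH_nonneg {n N : ℕ} (σ : Equiv.Perm (Fin n)) (τ : Equiv.Perm (Fin N)) : 0 ≤ dH σ τ := by
  unfold dH
  have h1 : (univ.filter (fun i : Fin n =>
    ∃ h : (i : ℕ) < N, ((τ ⟨i, h⟩ : Fin N) : ℕ) = (σ i : ℕ))).card ≤ max n N := by
    refine (Finset.card_filter_le _ _).trans ?_
    rw [Finset.card_univ, Fintype.card_fin]
    exact le_max_left _ _
  have h2 : ((univ.filter (fun i : Fin n =>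
    ∃ h : (i : ℕ) < N, ((τ ⟨i, h⟩ : Fin N) : ℕ) = (σ i : ℕ))).card : ℝ) / (max n N : ℕ) ≤ 1 :=
    div_le_one_of_le₀ (by exact_mod_cast h1) (by positivity)
  linarith

lemma dH_le_one {n N : ℕ} (σ : Equiv.Perm (Fin n)) (τ : Equiv.Perm (Fin N)) : dH σ τ ≤ 1 := by
  unfold dH
  have : 0 ≤ ((univ.filter (fun i : Fin n =>
    ∃ h : (i : ℕ) < N, ((τ ⟨i, h⟩ : Fin N) : ℕ) = (σ i : ℕ))).card : ℝ) / (max n N : ℕ) := by
    positivity
  linarith

lemma dH_self {n : ℕ} (hn : 0 < n) (σ : Equiv.Perm (Fin n)) :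
    dH σ (1 : Equiv.Perm (Fin n)) = (hd σ 1 : ℝ) / n := by
  unfold dH hd
  have h1 : (univ.filter (fun i : Fin n =>
    ∃ h : (i : ℕ) < n, (((1 : Equiv.Perm (Fin n)) ⟨i, h⟩ : Fin n) : ℕ) = (σ i : ℕ)))
      = univ.filter (fun i : Fin n => σ i = (1 : Equiv.Perm (Fin n)) i) := by
    apply Finset.filter_congr
    intro i _
    constructor
    · rintro ⟨_, h⟩
      exact Fin.ext h.symm
    · intro h
      exact ⟨i.2, (congrArg Fin.val h).symm⟩
  rw [h1]
  have h2 := Finset.card_filter_add_card_filter_not (s := (univ : Finset (Fin n)))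
    (fun i : Fin n => σ i = (1 : Equiv.Perm (Fin n)) i)
  rw [Finset.card_univ, Fintype.card_fin] at h2
  have h3 : (univ.filter (fun x => σ x ≠ (1 : Equiv.Perm (Fin n)) x)).card
      = (univ.filter (fun i : Fin n => ¬ σ i = (1 : Equiv.Perm (Fin n)) i)).card := by
    congr!
  have h4 : ((univ.filter (fun i : Fin n => σ i = (1 : Equiv.Perm (Fin n)) i)).card : ℝ)
      = n - (univ.filter (fun i : Fin n => ¬ σ i = (1 : Equiv.Perm (Fin n)) i)).card := by
    rw [eq_sub_iff_add_eq]
    exact_mod_cast h2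
  rw [h4, max_self]
  have hn' : (n : ℝ) ≠ 0 := by positivity
  field_simp
  rw [sub_sub_cancel]
  congr!

/-- a labelling extending a given one -/
lemma exists_label {n : ℕ} {Y : Type} [Fintype Y] (j : Fin n → Y) (hj : Function.Injective j) :
    ∃ e : Y ≃ Fin (n + (Fintype.card Y - n)), ∀ i, e (j i) = Fin.castAdd _ i := by
  classical
  have h1 : Fintype.card (Set.range j) = n := by
    rw [Set.card_range_of_injective hj, Fintype.card_fin]
  have h2 : Fintype.card ((Set.range j)ᶜ : Set Y) = Fintype.card Y - n := by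
    rw [Fintype.card_compl_set, h1]
  let e1 : Y ≃ (Set.range j) ⊕ ((Set.range j)ᶜ : Set Y) := (Equiv.Set.sumCompl _).symm
  let e2 : ((Set.range j)) ⊕ ((Set.range j)ᶜ : Set Y) ≃ Fin n ⊕ Fin (Fintype.card Y - n) :=
    Equiv.sumCongr (Equiv.ofInjective j hj).symm (Fintype.equivFinOfCardEq h2)
  refine ⟨e1.trans (e2.trans finSumFinEquiv), ?_⟩
  intro i
  have h3 : e1 (j i) = Sum.inl ⟨j i, ⟨i, rfl⟩⟩ := by
    rw [Equiv.symm_apply_eq]
    rfl
  simp only [Equiv.trans_apply, h3]
  have h4 : e2 (Sum.inl ⟨j i, ⟨i, rfl⟩⟩) = Sum.inl i := by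
    change Sum.inl ((Equiv.ofInjective j hj).symm ⟨j i, ⟨i, rfl⟩⟩) = _
    congr 1
    exact Equiv.ofInjective_symm_apply hj i
  rw [h4]
  rfl

lemma dH_round {n : ℕ} (hn : 0 < n) {Y : Type} [Fintype Y] (j : Fin n → Y)
    (e : Y ≃ Fin (n + (Fintype.card Y - n))) (he : ∀ i, e (j i) = Fin.castAdd _ i)
    (σ : Equiv.Perm (Fin n)) (F : Equiv.Perm Y) {m q : ℕ} (hm : Fintype.card Y - n ≤ m)
    (hq : ∀ [DecidablePred fun i => F (j i) ≠ j (σ i)],
      (univ.filter (fun i => F (j i) ≠ j (σ i))).card ≤ q) :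
    dH σ (e.permCongr F) ≤ ((m : ℝ) + q) / n := by
  classical
  have hq := hq
  set c := (univ.filter (fun i : Fin n =>
    ∃ h : (i : ℕ) < n + (Fintype.card Y - n),
      (((e.permCongr F) ⟨i, h⟩ : Fin _) : ℕ) = (σ i : ℕ))).card with hc
  have h1 : n ≤ c + q := by
    have h2 := Finset.card_filter_add_card_filter_not (s := (univ : Finset (Fin n)))
      (fun i : Fin n => F (j i) ≠ j (σ i))
    rw [Finset.card_univ, Fintype.card_fin] at h2
    have h3 : (univ.filter (fun i : Fin n => ¬ F (j i) ≠ j (σ i))).card ≤ c := by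
      refine Finset.card_le_card ?_
      intro i hi
      simp only [mem_filter, mem_univ, true_and, not_not] at hi ⊢
      refine ⟨by omega, ?_⟩
      have h4 : (⟨(i : ℕ), by omega⟩ : Fin (n + (Fintype.card Y - n))) = e (j i) := by
        rw [he]
        rfl
      rw [h4, Equiv.permCongr_apply, Equiv.symm_apply_apply, hi, he]
      rfl
    omega
  have hmax : max n (n + (Fintype.card Y - n)) = n + (Fintype.card Y - n) := by omega
  unfold dH
  rw [hmax, ← hc]
  have hn' : (0 : ℝ) < n := by exact_mod_cast hn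
  set N := n + (Fintype.card Y - n) with hN
  have hNn : (n : ℝ) ≤ N := by exact_mod_cast (by omega : n ≤ N)
  have hN0 : (0 : ℝ) < N := by linarith
  have h5 : (N : ℝ) ≤ n + m := by exact_mod_cast (by omega : N ≤ n + m)
  have h1' : (n : ℝ) ≤ c + q := by exact_mod_cast h1
  have h6 : 1 - (c : ℝ) / N = (N - c) / N := by field_simp
  rw [h6]
  have h7 : (N : ℝ) - c ≤ m + q := by linarith
  calc ((N : ℝ) - c) / N ≤ ((m : ℝ) + q) / N := by gcongr
    _ ≤ ((m : ℝ) + q) / n := by gcongr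

lemma hd_biInv {n : ℕ} : BiInv (hd : Equiv.Perm (Fin n) → Equiv.Perm (Fin n) → ℕ) where
  self a := by simp [hd]
  symm a b := by
    unfold hd
    congr 1
    ext x
    simp only [mem_filter, mem_univ, true_and]
    exact ne_comm
  tri a b c := by
    classical
    unfold hd
    refine le_trans (card_le_card ?_) (card_union_le _ _)
    intro g hg
    simp only [mem_union, mem_filter, mem_univ, true_and] at hg ⊢
    by_contra hcon
    push Not at hcon
    exact hg (hcon.1.trans hcon.2)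
  left a b c := by
    unfold hd
    congr 1
    ext x
    simp
  right a b c := hd_right a b c

/-- one step of the comparison: `F` compared with `σ`, when it is known for `τ` -/
lemma fail_le {n : ℕ} {Y : Type} (j : Fin n → Y) (F : Equiv.Perm Y)
    (σ τ : Equiv.Perm (Fin n)) [DecidablePred fun i => F (j i) ≠ j (σ i)]
    [DecidablePred fun i => F (j i) ≠ j (τ i)] :
    (univ.filter (fun i => F (j i) ≠ j (σ i))).card ≤
      (univ.filter (fun i => F (j i) ≠ j (τ i))).card + hd τ σ := by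
  classical
  unfold hd
  refine le_trans (card_le_card ?_) (card_union_le _ _)
  intro i hi
  simp only [mem_union, mem_filter, mem_univ, true_and] at hi ⊢
  by_contra hcon
  push Not at hcon
  rw [hcon.2] at hcon
  exact hi hcon.1

section main

variable {V : Type} [AddCommGroup V] [Fintype V] [DecidableEq V] {k : ℕ}

/-- the set of relators -/
def RR (V : Type) [AddCommGroup V] [Fintype V] [DecidableEq V] (k : ℕ) :
    Finset (FreeGroup (Gen V k)) :=
  univ.map ⟨rel, rel_inj⟩

lemma card_RR : (RR V k).card = Fintype.card (Idx V k) := by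
  unfold RR
  rw [Finset.card_map, Finset.card_univ]

lemma defect_eq {n : ℕ} (hn : 0 < n) (α : Gen V k → Equiv.Perm (Fin n)) :
    defect (RR V k) (fun _ => 1 / ((RR V k).card : ℝ)) α
      = (DD hd α : ℝ) / ((Fintype.card (Idx V k) : ℝ) * n) := by
  unfold defect
  rw [card_RR]
  unfold RR
  rw [Finset.sum_map]
  simp only [Function.Embedding.coeFn_mk, dH_self hn]
  rw [← Finset.mul_sum, ← Finset.sum_div]
  unfold DD Pool.Agent.W400.StabWords.val
  push_cast
  rw [one_div, inv_mul_eq_div, div_div, mul_comm (n : ℝ)]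

/-- The set whose infimum is the distance. -/
lemma distZ_le {n N : ℕ} (α : Gen V k → Equiv.Perm (Fin n)) (hN : 2 ≤ N)
    (B : GG V k →* Equiv.Perm (Fin N)) :
    distZ (RR V k) (fun _ => 1 / (Fintype.card (Gen V k) : ℝ)) α ≤
      (1 / (Fintype.card (Gen V k) : ℝ)) * ∑ s, dH (α s) (B (gen s)) := by
  unfold distZ
  refine csInf_le ?_ ?_
  · refine ⟨0, ?_⟩
    rintro t ⟨N, β, _, _, rfl⟩
    refine Finset.sum_nonneg ?_
    intro s _
    exact mul_nonneg (by positivity) (dH_nonneg _ _)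
  · refine ⟨N, fun s => B (gen s), hN, ?_, ?_⟩
    · intro r hr
      unfold RR at hr
      rw [Finset.mem_map] at hr
      obtain ⟨t, _, rfl⟩ := hr
      have h1 : FreeGroup.lift (fun s => B (gen s)) =
          B.comp (FreeGroup.lift (gen : Gen V k → GG V k)) := by
        apply FreeGroup.ext_hom
        intro a
        simp
      change FreeGroup.lift (fun s => B (gen s)) (rel t) = 1
      rw [h1]
      change B (Pool.Agent.W400.StabWords.val gen t) = 1
      rw [val_gen, map_one]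
    · rw [Finset.mul_sum]

/-- Case 2: uniform rounding. -/
lemma case2 {n : ℕ} (hn : 2 ≤ n) (α : Gen V k → Equiv.Perm (Fin n)) :
    distZ (RR V k) (fun _ => 1 / (Fintype.card (Gen V k) : ℝ)) α ≤ 123 * (DD hd α : ℝ) / n := by
  classical
  obtain ⟨Y, instY, F, j, hj, hY, hF⟩ := rounding
    (fun g : GG V k => nf α (Multiplicative.toAdd g))
  set D := DD hd α with hD
  set M := Fintype.card (GG V k) with hM
  have hM0 : 0 < M := Fintype.card_pos
  have h1 : ∀ g h : GG V k, hd (nf α (Multiplicative.toAdd (h * g)))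
      (nf α (Multiplicative.toAdd h) * nf α (Multiplicative.toAdd g)) ≤ D := by
    intro g h
    rw [hd_biInv.symm]
    exact nf_mul hd_biInv α _ _
  have h2 : ∀ g : GG V k, ∑ h : GG V k, hd (nf α (Multiplicative.toAdd (h * g)))
      (nf α (Multiplicative.toAdd h) * nf α (Multiplicative.toAdd g)) ≤ M * D := by
    intro g
    calc _ ≤ ∑ h : GG V k, D := Finset.sum_le_sum (fun h _ => h1 g h)
      _ = _ := by rw [Finset.sum_const, smul_eq_mul, Finset.card_univ]
  have h3 : ∑ g : GG V k, ∑ h : GG V k, hd (nf α (Multiplicative.toAdd (h * g)))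
      (nf α (Multiplicative.toAdd h) * nf α (Multiplicative.toAdd g)) ≤ M * (M * D) := by
    calc _ ≤ ∑ g : GG V k, M * D := Finset.sum_le_sum (fun g _ => h2 g)
      _ = _ := by rw [Finset.sum_const, smul_eq_mul, Finset.card_univ]
  have hMM : 0 < M ^ 2 := by positivity
  have h4 : 3 * (Fintype.card Y - n) ≤ 160 * D := by
    have h5 := hY.trans (Nat.mul_le_mul_left _ h3)
    rw [Fintype.card_fin] at h5
    have h6 : M ^ 2 * (3 * (Fintype.card Y - n)) ≤ M ^ 2 * (160 * D) := by
      calc _ = 3 * M ^ 2 * (Fintype.card Y - n) := by ring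
        _ ≤ 160 * (M * (M * D)) := h5
        _ = _ := by ring
    exact Nat.le_of_mul_le_mul_left h6 hMM
  have h7 : ∀ g : GG V k, (univ.filter (fun x : Fin n => F g (j x) ≠
      j (nf α (Multiplicative.toAdd g) x))).card ≤ 68 * D := by
    intro g
    have h5 := (hF g).trans (Nat.add_le_add (Nat.mul_le_mul_left _ h3)
      (Nat.mul_le_mul_left _ (h2 g)))
    have h6 : M ^ 2 * (univ.filter (fun x : Fin n => F g (j x) ≠
      j (nf α (Multiplicative.toAdd g) x))).card ≤ M ^ 2 * (68 * D) := by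
      refine le_trans (le_of_eq ?_) (h5.trans (le_of_eq ?_))
      · congr!
      · ring
    exact Nat.le_of_mul_le_mul_left h6 hMM
  obtain ⟨e, he⟩ := exists_label j hj
  let B : GG V k →* Equiv.Perm (Fin (n + (Fintype.card Y - n))) :=
    e.permCongrHom.toMonoidHom.comp F
  have hBg : ∀ g, B g = e.permCongr (F g) := fun g => rfl
  have hn0 : 0 < n := by omega
  have hn' : (0 : ℝ) < n := by exact_mod_cast hn0
  have h8 : ∀ s : Gen V k, dH (α s) (B (gen s)) ≤ 123 * (D : ℝ) / n := by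
    intro s
    rw [hBg]
    have h9 : ∀ [DecidablePred fun i => F (gen s) (j i) ≠ j (α s i)],
      (univ.filter (fun i => F (gen s) (j i) ≠ j (α s i))).card ≤ 69 * D := by
      intro _
      refine (fail_le j (F (gen s)) (α s) (nf α (Multiplicative.toAdd (gen s)))).trans ?_
      have h10 : hd (nf α (Multiplicative.toAdd (gen s))) (α s) ≤ D := by
        rcases s with v | i
        · rw [gen_inl, toAdd_ofAdd, nf_inl, hd_biInv.self]
          exact Nat.zero_le _
        · rw [gen_inr, toAdd_ofAdd]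
          exact nf_inr hd_biInv α i
      have h11 := h7 (gen s)
      have h12 : (univ.filter (fun i => F (gen s) (j i) ≠
          j (nf α (Multiplicative.toAdd (gen s)) i))).card ≤ 68 * D := by
        convert h11
      omega
    refine (dH_round hn0 j e he (α s) (F (gen s)) (le_refl _) h9).trans ?_
    have h13 : (3 : ℝ) * ((Fintype.card Y - n : ℕ) : ℝ) ≤ 160 * D := by exact_mod_cast h4
    gcongr
    push_cast
    have hD0 : (0 : ℝ) ≤ D := Nat.cast_nonneg _
    linarith
  refine (distZ_le α (by omega : 2 ≤ n + (Fintype.card Y - n)) B).trans ?_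
  have hS : 0 < Fintype.card (Gen V k) :=
    Fintype.card_pos_iff.2 ⟨Sum.inl 0⟩
  have hS' : (0 : ℝ) < Fintype.card (Gen V k) := by exact_mod_cast hS
  calc _ ≤ (1 / (Fintype.card (Gen V k) : ℝ)) * ∑ s : Gen V k, 123 * (D : ℝ) / n := by
        gcongr with s _
        exact h8 s
    _ = _ := by
        rw [Finset.sum_const, Finset.card_univ, nsmul_eq_mul]
        field_simp

/-- Case 1: rounding on the table part. -/
lemma case1 {n : ℕ} (hn : 2 ≤ n) (α : Gen V k → Equiv.Perm (Fin n)) :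
    distZ (RR V k) (fun _ => 1 / (Fintype.card (Gen V k) : ℝ)) α ≤
      122 * (DD hd α : ℝ) / ((Fintype.card V : ℝ) ^ 2 * n) + k / (Fintype.card V : ℝ) := by
  classical
  obtain ⟨Y, instY, F, j, hj, hY, hF⟩ := rounding
    (fun g : Multiplicative V => α (Sum.inl (Multiplicative.toAdd g)))
  set D := DD hd α with hD
  have hMV : Fintype.card (Multiplicative V) = Fintype.card V := Fintype.card_multiplicative V
  rw [hMV] at hY hF
  set M := Fintype.card V with hM
  have hM0 : 0 < M := Fintype.card_pos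
  set Eg : Multiplicative V → ℕ := fun g => ∑ h : Multiplicative V,
    hd (α (Sum.inl (Multiplicative.toAdd (h * g))))
      (α (Sum.inl (Multiplicative.toAdd h)) * α (Sum.inl (Multiplicative.toAdd g))) with hEg
  set E := ∑ g, Eg g with hE
  have hED : E ≤ D := by
    have h1 : E = ∑ v : V, ∑ w : V, hd (α (Sum.inl v) * α (Sum.inl w)) (α (Sum.inl (v + w))) := by
      rw [hE, hEg, Finset.sum_comm]
      refine Fintype.sum_equiv Multiplicative.toAdd _ _ ?_
      intro g
      refine Fintype.sum_equiv Multiplicative.toAdd _ _ ?_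
      intro h
      rw [hd_biInv.symm, toAdd_mul]
    rw [h1, hD, DD_eq hd_biInv]
    exact Nat.le_add_right _ _
  obtain ⟨e, he⟩ := exists_label j hj
  let pr : GG V k →* Multiplicative V := AddMonoidHom.toMultiplicative (AddMonoidHom.fst _ _)
  let B : GG V k →* Equiv.Perm (Fin (n + (Fintype.card Y - n))) :=
    (e.permCongrHom.toMonoidHom.comp F).comp pr
  have hBg : ∀ v : V, B (gen (Sum.inl v)) = e.permCongr (F (Multiplicative.ofAdd v)) :=
    fun v => rfl
  have hn0 : 0 < n := by omega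
  have hn' : (0 : ℝ) < n := by exact_mod_cast hn0
  have hM' : (0 : ℝ) < M := by exact_mod_cast hM0
  obtain ⟨m, hm⟩ : ∃ m, m = Fintype.card Y - n := ⟨_, rfl⟩
  have hY' : 3 * M ^ 2 * m ≤ 160 * E := by
    rw [Fintype.card_fin, ← hm] at hY
    exact hY
  have h7 : ∀ v : V, dH (α (Sum.inl v)) (B (gen (Sum.inl v))) ≤
      ((m : ℝ) + (64 * E + 4 * M * Eg (Multiplicative.ofAdd v)) / (M : ℝ) ^ 2) / n := by
    intro v
    rw [hBg]
    have h5 := hF (Multiplicative.ofAdd v)
    set q := (univ.filter (fun x : Fin n => F (Multiplicative.ofAdd v) (j x) ≠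
      j (α (Sum.inl v) x))).card with hq
    have h6 : M ^ 2 * q ≤ 64 * E + 4 * M * Eg (Multiplicative.ofAdd v) := by
      refine le_trans (le_of_eq ?_) h5
      congr!
    have h9 : ∀ [DecidablePred fun i => F (Multiplicative.ofAdd v) (j i) ≠ j (α (Sum.inl v) i)],
      (univ.filter (fun i => F (Multiplicative.ofAdd v) (j i) ≠ j (α (Sum.inl v) i))).card
        ≤ q := by
      intro _
      rw [hq]
      apply le_of_eq
      congr!
    refine (dH_round hn0 j e he _ (F (Multiplicative.ofAdd v)) hm.ge h9).trans ?_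
    have h6' : (M : ℝ) ^ 2 * q ≤ 64 * E + 4 * M * Eg (Multiplicative.ofAdd v) := by
      exact_mod_cast h6
    gcongr
    rw [le_div_iff₀ (by positivity)]
    linarith
  refine (distZ_le α (by omega : 2 ≤ n + (Fintype.card Y - n)) B).trans ?_
  rw [Fintype.sum_sum_type]
  have h8 : ∑ i : Fin k, dH (α (Sum.inr i)) (B (gen (Sum.inr i))) ≤ k := by
    calc _ ≤ ∑ i : Fin k, (1 : ℝ) := Finset.sum_le_sum (fun i _ => dH_le_one _ _)
      _ = _ := by simp
  have h10 : ∑ v : V, dH (α (Sum.inl v)) (B (gen (Sum.inl v))) ≤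
      122 * (D : ℝ) / (M * n) := by
    refine (Finset.sum_le_sum (fun v _ => h7 v)).trans ?_
    have h11 : ∑ v : V, (Eg (Multiplicative.ofAdd v) : ℝ) = E := by
      rw [hE]
      push_cast
      exact Fintype.sum_equiv Multiplicative.ofAdd _ _ (fun v => rfl)
    have h15 : ∑ v : V, (64 * (E : ℝ) + 4 * M * Eg (Multiplicative.ofAdd v))
        = (M : ℝ) * (64 * E) + 4 * M * E := by
      rw [Finset.sum_add_distrib, Finset.sum_const, ← Finset.mul_sum, h11, Finset.card_univ,
        nsmul_eq_mul]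
    rw [← Finset.sum_div, Finset.sum_add_distrib, ← Finset.sum_div, h15, Finset.sum_const,
      Finset.card_univ, nsmul_eq_mul]
    have hED' : (E : ℝ) ≤ D := by exact_mod_cast hED
    have hE0 : (0 : ℝ) ≤ E := Nat.cast_nonneg _
    have hY'' : 3 * (M : ℝ) ^ 2 * m ≤ 160 * E := by exact_mod_cast hY'
    rw [show 122 * (D : ℝ) / (M * n) = (122 * (D : ℝ) / M) / n by rw [div_div]]
    gcongr
    have h12 : (M : ℝ) * m ≤ 160 / 3 * E / M := by
      rw [le_div_iff₀ hM']
      nlinarith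
    have h13 : ((M : ℝ) * (64 * E) + 4 * M * E) / (M : ℝ) ^ 2 = 68 * E / M := by
      field_simp
      ring
    change (M : ℝ) * m + ((M : ℝ) * (64 * E) + 4 * M * E) / (M : ℝ) ^ 2 ≤ 122 * D / M
    rw [h13]
    calc (M : ℝ) * m + 68 * E / M ≤ 160 / 3 * E / M + 68 * E / M := by linarith
      _ = (160 / 3 * E + 68 * E) / M := by rw [add_div]
      _ ≤ 122 * D / M := by
          gcongr
          linarith
  have hS : M ≤ Fintype.card (Gen V k) := by
    rw [Fintype.card_sum]
    exact Nat.le_add_right _ _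
  have hS' : (M : ℝ) ≤ Fintype.card (Gen V k) := by exact_mod_cast hS
  have hD0 : (0 : ℝ) ≤ D := Nat.cast_nonneg _
  calc (1 / (Fintype.card (Gen V k) : ℝ)) * (∑ v : V, dH (α (Sum.inl v)) (B (gen (Sum.inl v))) +
        ∑ i : Fin k, dH (α (Sum.inr i)) (B (gen (Sum.inr i))))
      ≤ (1 / (M : ℝ)) * (122 * (D : ℝ) / (M * n) + k) := by
        have h14 : 0 ≤ ∑ v : V, dH (α (Sum.inl v)) (B (gen (Sum.inl v))) +
          ∑ i : Fin k, dH (α (Sum.inr i)) (B (gen (Sum.inr i))) :=
          add_nonneg (Finset.sum_nonneg (fun _ _ => dH_nonneg _ _))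
            (Finset.sum_nonneg (fun _ _ => dH_nonneg _ _))
        gcongr
    _ = _ := by
        field_simp

end main

/-- the analytic part -/
lemma combine {k : ℕ} (hk : 1 ≤ k) {x D : ℝ} {n : ℕ} (hn : 2 ≤ n) (hD0 : 0 ≤ D)
    {I : ℝ} (hI1 : 1 ≤ I) (hI : I ≤ 3 * (k : ℝ) ^ 6) (hDI : D ≤ I * n)
    (h1 : x ≤ 122 * D / (((k : ℝ) ^ 3) ^ 2 * n) + k / (k : ℝ) ^ 3)
    (h2 : x ≤ 123 * D / n) : x ≤ 400 * (D / (I * n)) ^ (1 / 4 : ℝ) := by
  have hk' : (1 : ℝ) ≤ k := by exact_mod_cast hk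
  have hk0 : (0 : ℝ) < k := by linarith
  have hn' : (0 : ℝ) < n := by exact_mod_cast (by omega : 0 < n)
  have hI0 : 0 < I := by linarith
  set ε := D / (I * n) with hε
  have hε0 : 0 ≤ ε := by positivity
  have hε1 : ε ≤ 1 := by
    rw [hε, div_le_one (by positivity)]
    exact hDI
  set δ := ε ^ (1 / 4 : ℝ) with hδ
  have hδ0 : 0 ≤ δ := Real.rpow_nonneg hε0 _
  have hδ4 : δ ^ 4 = ε := by
    rw [hδ, ← Real.rpow_natCast, ← Real.rpow_mul hε0]
    norm_num
  have hδ1 : δ ≤ 1 := by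
    rw [hδ]
    exact Real.rpow_le_one hε0 hε1 (by norm_num)
  have hDε : D = ε * (I * n) := by
    rw [hε]
    field_simp
  by_cases hc : 1 ≤ (k : ℝ) ^ 2 * δ
  · -- case 1
    refine h1.trans ?_
    have e1 : 122 * D / (((k : ℝ) ^ 3) ^ 2 * n) ≤ 366 * ε := by
      rw [hDε, div_le_iff₀ (by positivity)]
      have : ε * I ≤ ε * (3 * (k : ℝ) ^ 6) := mul_le_mul_of_nonneg_left hI hε0
      have h3 : ε * I * n ≤ ε * (3 * (k : ℝ) ^ 6) * n := mul_le_mul_of_nonneg_right this hn'.le
      calc 122 * (ε * (I * n)) = 122 * (ε * I * n) := by ring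
        _ ≤ 122 * (ε * (3 * (k : ℝ) ^ 6) * n) := by linarith
        _ = 366 * ε * (((k : ℝ) ^ 3) ^ 2 * n) := by ring
    have e2 : (k : ℝ) / (k : ℝ) ^ 3 ≤ δ := by
      rw [div_le_iff₀ (by positivity)]
      calc (k : ℝ) = k * 1 := by ring
        _ ≤ k * ((k : ℝ) ^ 2 * δ) := by gcongr
        _ = δ * (k : ℝ) ^ 3 := by ring
    have e3 : ε ≤ δ := by
      rw [← hδ4]
      calc δ ^ 4 ≤ δ ^ 1 := pow_le_pow_of_le_one hδ0 hδ1 (by norm_num)
        _ = δ := pow_one δ
    linarith
  · push Not at hc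
    refine h2.trans ?_
    have e1 : 123 * D / n ≤ 369 * (k : ℝ) ^ 6 * ε := by
      rw [hDε, div_le_iff₀ hn']
      have : ε * I ≤ ε * (3 * (k : ℝ) ^ 6) := mul_le_mul_of_nonneg_left hI hε0
      have h3 : ε * I * n ≤ ε * (3 * (k : ℝ) ^ 6) * n := mul_le_mul_of_nonneg_right this hn'.le
      calc 123 * (ε * (I * n)) = 123 * (ε * I * n) := by ring
        _ ≤ 123 * (ε * (3 * (k : ℝ) ^ 6) * n) := by linarith
        _ = 369 * (k : ℝ) ^ 6 * ε * n := by ring
    have e2 : (k : ℝ) ^ 6 * ε ≤ δ := by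
      calc (k : ℝ) ^ 6 * ε = ((k : ℝ) ^ 2 * δ) ^ 3 * δ := by rw [← hδ4]; ring
        _ ≤ 1 ^ 3 * δ := by
            gcongr
        _ = δ := by ring
    nlinarith

lemma DD_le {V : Type} [AddCommGroup V] [Fintype V] [DecidableEq V] {k n : ℕ}
    (α : Gen V k → Equiv.Perm (Fin n)) : DD hd α ≤ Fintype.card (Idx V k) * n := by
  unfold DD
  calc _ ≤ ∑ t : Idx V k, n := by
        refine Finset.sum_le_sum ?_
        intro t _
        refine (hd_le _ _).trans ?_
        rw [Fintype.card_fin]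
    _ = _ := by rw [Finset.sum_const, smul_eq_mul, Finset.card_univ]

/-- There are constants `A ≥ 1` and `c > 0` and elementary abelian `2`-groups `G` of arbitrarily
large order with finite presentations `⟨S | R⟩` such that `|S|`, `|R|` and the length of each relator are at most
`A (log |G|)^A`, and such that the presentation, with the uniform distributions on `S` and `R`, is
`ρ`-stable with `ρ(ε) = A (log log |G|)^A ε^c`. -/
theorem result : ∃ A c : ℝ, 1 ≤ A ∧ 0 < c ∧ ∀ M : ℕ,
    ∃ (G : Type) (_ : Group G) (_ : Fintype G) (S : Type) (_ : Fintype S) (_ : DecidableEq S)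
      (R : Finset (FreeGroup S)),
      M ≤ Fintype.card G ∧ (∀ g : G, g * g = 1) ∧
      Nonempty (PresentedGroup (R : Set (FreeGroup S)) ≃* G) ∧
      (Fintype.card S : ℝ) ≤ A * Real.log (Fintype.card G) ^ A ∧
      (R.card : ℝ) ≤ A * Real.log (Fintype.card G) ^ A ∧
      (∀ r ∈ R, (r.norm : ℝ) ≤ A * Real.log (Fintype.card G) ^ A) ∧
      IsStable R (fun _ => 1 / (Fintype.card S : ℝ)) (fun _ => 1 / (R.card : ℝ))
        (fun ε => A * Real.log (Real.log (Fintype.card G)) ^ A * ε ^ c) := by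
  refine ⟨400, 1 / 4, by norm_num, by norm_num, ?_⟩
  intro M
  obtain ⟨a, ha⟩ : ∃ a, a = M + 3 := ⟨_, rfl⟩
  obtain ⟨k, hk⟩ : ∃ k, k = 2 ^ a := ⟨_, rfl⟩
  have hak : a < k := hk ▸ Nat.lt_two_pow_self
  have hk8 : 8 ≤ k := by
    rw [hk]
    calc 8 = 2 ^ 3 := by norm_num
      _ ≤ 2 ^ a := Nat.pow_le_pow_right (by norm_num) (by omega)
  have hk0 : 0 < k := by omega
  have hcV : Fintype.card (Fin (3 * a) → ZMod 2) = k ^ 3 := by
    rw [Fintype.card_fun, ZMod.card, Fintype.card_fin, hk, ← pow_mul, mul_comm]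
  have hcG : Fintype.card (GG (Fin (3 * a) → ZMod 2) k) = k ^ 3 * 2 ^ k := by
    rw [Fintype.card_multiplicative, Fintype.card_prod, hcV, Fintype.card_fun, ZMod.card,
      Fintype.card_fin]
  have h2k : k < 2 ^ k := Nat.lt_two_pow_self
  have hk3 : 1 ≤ k ^ 3 := Nat.one_le_pow _ _ hk0
  have hge : 2 ^ k ≤ Fintype.card (GG (Fin (3 * a) → ZMod 2) k) := by
    rw [hcG]
    nlinarith
  have hkR : (6 : ℝ) ≤ k := by exact_mod_cast (by omega : 6 ≤ k)
  set L := Real.log (Fintype.card (GG (Fin (3 * a) → ZMod 2) k)) with hL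
  have hL1 : (k : ℝ) / 2 ≤ L := by
    have h1 : (k : ℝ) * Real.log 2 ≤ L := by
      rw [← Real.log_pow, hL]
      apply Real.log_le_log (by positivity)
      exact_mod_cast hge
    have h2 : (0.6931471803 : ℝ) < Real.log 2 := Real.log_two_gt_d9
    nlinarith
  have hL3 : 3 ≤ L := by linarith
  have hkL : (k : ℝ) ≤ 2 * L := by linarith
  have hpow : ∀ n : ℕ, n ≤ 400 → L ^ n ≤ L ^ (400 : ℝ) := by
    intro n hn
    rw [← Real.rpow_natCast]
    apply Real.rpow_le_rpow_of_exponent_le (by linarith)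
    exact_mod_cast hn
  have hpow1 : 1 ≤ L ^ (400 : ℝ) := Real.one_le_rpow (by linarith) (by norm_num)
  have hlog : 1 ≤ Real.log L := by
    rw [Real.le_log_iff_exp_le (by linarith)]
    have := Real.exp_one_lt_d9
    linarith
  have hlogp : 1 ≤ Real.log L ^ (400 : ℝ) := Real.one_le_rpow hlog (by norm_num)
  have hcI : Fintype.card (Idx (Fin (3 * a) → ZMod 2) k) = (k ^ 3 * k ^ 3) + (k * k + k * k ^ 3) := by
    rw [Fintype.card_sum, Fintype.card_sum, Fintype.card_prod, Fintype.card_prod,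
      Fintype.card_prod, hcV, Fintype.card_fin]
  have hkk : (1 : ℝ) ≤ k := by linarith
  have hI3 : (Fintype.card (Idx (Fin (3 * a) → ZMod 2) k) : ℝ) ≤ 3 * (k : ℝ) ^ 6 := by
    rw [hcI]
    push_cast
    have e1 : (k : ℝ) ^ 2 ≤ (k : ℝ) ^ 6 := pow_le_pow_right₀ hkk (by norm_num)
    have e2 : (k : ℝ) ^ 4 ≤ (k : ℝ) ^ 6 := pow_le_pow_right₀ hkk (by norm_num)
    nlinarith
  have hI1 : (1 : ℝ) ≤ (Fintype.card (Idx (Fin (3 * a) → ZMod 2) k) : ℝ) := by
    have : 1 ≤ Fintype.card (Idx (Fin (3 * a) → ZMod 2) k) := by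
      rw [hcI]
      nlinarith
    exact_mod_cast this
  refine ⟨GG (Fin (3 * a) → ZMod 2) k, inferInstance, inferInstance, Gen (Fin (3 * a) → ZMod 2) k, inferInstance,
    inferInstance, RR (Fin (3 * a) → ZMod 2) k, ?_, ?_, ?_, ?_, ?_, ?_, ?_⟩
  · omega
  · intro g
    have h2 : ∀ t : ZMod 2, t + t = 0 := by decide
    change Multiplicative.ofAdd (Multiplicative.toAdd g + Multiplicative.toAdd g) = 1
    have h3 : Multiplicative.toAdd g + Multiplicative.toAdd g = 0 := by
      refine Prod.ext ?_ ?_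
      · funext l
        exact h2 _
      · funext l
        exact h2 _
    rw [h3]
    rfl
  · have h1 : ((RR (Fin (3 * a) → ZMod 2) k : Finset (FreeGroup (Gen (Fin (3 * a) → ZMod 2) k))) :
        Set (FreeGroup (Gen (Fin (3 * a) → ZMod 2) k))) = Set.range rel := by
      unfold RR
      rw [Finset.coe_map, Finset.coe_univ, Set.image_univ]
      rfl
    rw [h1]
    exact iso
  · rw [Fintype.card_sum, hcV, Fintype.card_fin]
    push_cast
    have e1 : (k : ℝ) ≤ (k : ℝ) ^ 3 := by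
      calc (k : ℝ) = (k : ℝ) ^ 1 := (pow_one _).symm
        _ ≤ _ := pow_le_pow_right₀ hkk (by norm_num)
    have e2 : (k : ℝ) ^ 3 ≤ (2 * L) ^ 3 := by gcongr
    have e3 := hpow 3 (by norm_num)
    have e4 : (2 * L) ^ 3 = 8 * L ^ 3 := by ring
    rw [e4] at e2
    change (k : ℝ) ^ 3 + k ≤ 400 * L ^ (400 : ℝ)
    linarith
  · rw [card_RR]
    have e2 : (k : ℝ) ^ 6 ≤ (2 * L) ^ 6 := by gcongr
    have e3 := hpow 6 (by norm_num)
    have e4 : (2 * L) ^ 6 = 64 * L ^ 6 := by ring
    rw [e4] at e2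
    change (Fintype.card (Idx (Fin (3 * a) → ZMod 2) k) : ℝ) ≤ 400 * L ^ (400 : ℝ)
    linarith
  · intro r hr
    unfold RR at hr
    rw [Finset.mem_map] at hr
    obtain ⟨t, _, rfl⟩ := hr
    have h1 : ((rel t).norm : ℝ) ≤ 4 := by exact_mod_cast norm_rel t
    change ((rel t).norm : ℝ) ≤ 400 * L ^ (400 : ℝ)
    linarith
  · intro n hn α
    have hn0 : 0 < n := by omega
    rw [defect_eq hn0]
    have h1 := case1 hn α
    have h2 := case2 hn α
    rw [hcV] at h1
    push_cast at h1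
    have hDI : (DD hd α : ℝ) ≤ (Fintype.card (Idx (Fin (3 * a) → ZMod 2) k) : ℝ) * n := by
      exact_mod_cast DD_le α
    have h3 := combine (by omega : 1 ≤ k) hn (Nat.cast_nonneg _) hI1 hI3 hDI h1 h2
    refine h3.trans ?_
    change _ ≤ 400 * Real.log L ^ (400 : ℝ) * _
    have h4 : 0 ≤ ((DD hd α : ℝ) / ((Fintype.card (Idx (Fin (3 * a) → ZMod 2) k) : ℝ) * n)) ^ (1 / 4 : ℝ) :=
      Real.rpow_nonneg (by positivity) _
    calc 400 * ((DD hd α : ℝ) / ((Fintype.card (Idx (Fin (3 * a) → ZMod 2) k) : ℝ) * n)) ^ (1 / 4 : ℝ)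
        = 400 * 1 * ((DD hd α : ℝ) / ((Fintype.card (Idx (Fin (3 * a) → ZMod 2) k) : ℝ) * n)) ^
          (1 / 4 : ℝ) := by ring
      _ ≤ _ := by gcongr

end Pool.Agent.Results.MP_3a79a1_al.StableShortPresentations
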